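import Pool.Agent.VB.C

/-!
# Omitting types

If a tame piece `X` has no Scott level at the countable limit level `α`, then there is a countable
piece equivalent to `X` at all levels below `α` but not at all countable levels. The countable
piece is built from a generic sequence of conditions (finite tuple of `X`, level below `α`).
-/

set_option autoImplicit false
set_option linter.unusedSectionVars false
set_option linter.unusedVariables false

namespace Pool.Agent.Helper97.LO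

open Set Pool.Agent.Helper5.DU Pool.Agent.Helper6.Str Pool.Agent.Helper79.VC
  Pool.Agent.Helper97.VC

variable {L : FirstOrder.Language.{0, 0}} {M N P : Type}

/-! ### generic sequences -/

theorem gen_seq {Q : Type*} {ι : Type*} [Countable ι] [Nonempty ι] (r : Q → Q → Prop)
    (hr : ∀ p, r p p) (ht : ∀ p q s, r p q → r q s → r p s) (D : ι → Set Q)
    (hD : ∀ i p, ∃ q, r p q ∧ q ∈ D i) (p0 : Q) :
    ∃ f : ℕ → Q, (∀ k k', k ≤ k' → r (f k) (f k')) ∧ ∀ i k, ∃ k', k ≤ k' ∧ f k' ∈ D i := by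
  obtain ⟨g, hg⟩ := exists_surjective_nat ι
  choose s hs hs' using hD
  let f : ℕ → Q := fun k => Nat.rec p0 (fun j p => s (g j.unpair.1) p) k
  have hf : ∀ k, f (k + 1) = s (g k.unpair.1) (f k) := fun k => rfl
  refine ⟨f, fun k k' hkk' => ?_, fun i k => ?_⟩
  · induction k', hkk' using Nat.le_induction with
    | base => exact hr _
    | succ k' _ ih => exact ht _ _ _ ih (by rw [hf]; exact hs _ _)
  · obtain ⟨a, ha⟩ := hg i
    refine ⟨Nat.pair a k + 1, (Nat.right_le_pair a k).trans (Nat.le_succ _), ?_⟩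
    rw [hf, Nat.unpair_pair, ← ha]
    exact hs' _ _

/-! ### limit ordinals -/

theorem add_nat_lt {α : Ordinal.{0}} (hlim : ∀ β < α, β + 1 < α) {β : Ordinal.{0}} (hβ : β < α)
    (n : ℕ) : β + (n : Ordinal.{0}) < α := by
  induction n with
  | zero => simpa using hβ
  | succ n ih =>
    have := hlim _ ih
    rwa [add_assoc, ← Nat.cast_one, ← Nat.cast_add] at this

/-- the level `α` is the limit of the levels below -/
theorem BFR.of_lim {S : L.Structure M} {S' : L.Structure N} {U : Set M} {V : Set N}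
    {α : Ordinal.{0}} (h0 : 0 < α) (hlim : ∀ β < α, β + 1 < α) {p : Set (M × N)}
    (h : ∀ β < α, BFR S S' U V β p) : BFR S S' U V α p := by
  rw [BFR.def]
  exact ⟨(h 0 h0).atEq, fun β hβ => ⟨fun x hx => (h _ (hlim β hβ)).forth (lt_add_one_self β) hx,
    fun y hy => (h _ (hlim β hβ)).back (lt_add_one_self β) hy⟩⟩

/-! ### isolated tuples -/

/-- The type of level `α` of the tuple `c` of `X` is isolated by a lower level. -/
def Iso (S : L.Structure M) (X : Set M) (α : Ordinal.{0}) {n : ℕ} (c : Fin n → M) : Prop :=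
  ∃ β < α, ∀ b : Fin n → M, (∀ i, b i ∈ X) → BFR S S X X β (range fun i => (c i, b i)) →
    ∀ β' < α, BFR S S X X β' (range fun i => (c i, b i))

/-- If all tuples are isolated then `α` is a Scott level. -/
theorem SL.of_iso {S : L.Structure M} {X : Set M} {α : Ordinal.{0}} (h0 : 0 < α)
    (hlim : ∀ β < α, β + 1 < α)
    (h : ∀ (n : ℕ) (c : Fin n → M), (∀ i, c i ∈ X) → Iso S X α c) : SL S X α := by
  suffices H : ∀ γ : Ordinal.{0}, ∀ p : Set (M × M), p.Finite → (∀ a ∈ p, a.1 ∈ X ∧ a.2 ∈ X) →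
      (∀ β < α, BFR S S X X β p) → BFR S S X X γ p from
    fun p hp hpX hb γ _ => H γ p hp hpX fun β hβ => hb.mono hβ.le
  have key : ∀ p : Set (M × M), p.Finite → (∀ a ∈ p, a.1 ∈ X ∧ a.2 ∈ X) →
      (∀ β < α, BFR S S X X β p) → ∀ x ∈ X, ∃ y ∈ X, ∀ β < α, BFR S S X X β (insert (x, y) p) := by
    intro p hp hpX hb x hx
    let e := hp.toFinset.equivFin
    let a : Fin hp.toFinset.card → M := fun i => (e.symm i).1.1
    let b : Fin hp.toFinset.card → M := fun i => (e.symm i).1.2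
    have hpe : ∀ z ∈ p, ∃ i, a i = z.1 ∧ b i = z.2 := by
      intro z hz
      have hz' : z ∈ hp.toFinset := hp.mem_toFinset.mpr hz
      exact ⟨e ⟨z, hz'⟩, by simp [a], by simp [b]⟩
    have hpe' : ∀ i, (a i, b i) ∈ p := by
      intro i
      have := (e.symm i).2
      rw [hp.mem_toFinset] at this
      exact this
    obtain ⟨β, hβ, hiso⟩ := h _ (Fin.cons x a : Fin (hp.toFinset.card + 1) → M) (by
      intro i
      refine Fin.cases ?_ (fun i => ?_) i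
      · exact hx
      · exact (hpX _ (hpe' i)).1)
    obtain ⟨y, hy, h1⟩ := (hb _ (hlim β hβ)).forth (lt_add_one_self β) hx
    refine ⟨y, hy, fun β' hβ' => ?_⟩
    refine BFR.anti ?_ (hiso (Fin.cons y b) (by
      intro i
      refine Fin.cases ?_ (fun i => ?_) i
      · exact hy
      · exact (hpX _ (hpe' i)).2) (BFR.anti ?_ h1) β' hβ')
    · rintro z (rfl | hz)
      · exact ⟨0, rfl⟩
      · obtain ⟨i, hi1, hi2⟩ := hpe z hz
        refine ⟨i.succ, ?_⟩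
        show (a i, b i) = z
        rw [hi1, hi2]
    · rintro _ ⟨i, rfl⟩
      refine Fin.cases ?_ (fun i => ?_) i
      · exact mem_insert _ _
      · exact mem_insert_of_mem _ (hpe' i)
  intro γ
  induction γ using WellFoundedLT.induction with
  | _ γ ih =>
    intro p hp hpX hb
    rw [BFR.def]
    refine ⟨(hb 0 h0).atEq, fun β hβ => ⟨fun x hx => ?_, fun y hy => ?_⟩⟩
    · obtain ⟨y, hy, h1⟩ := key p hp hpX hb x hx
      refine ⟨y, hy, ih β hβ _ (hp.insert _) ?_ h1⟩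
      rintro a (rfl | ha)
      · exact ⟨hx, hy⟩
      · exact hpX a ha
    · obtain ⟨x, hx, h1⟩ := key (Prod.swap ⁻¹' p) (hp.preimage Prod.swap_injective.injOn)
        (fun a ha => ⟨(hpX _ ha).2, (hpX _ ha).1⟩) (fun β hβ => (hb β hβ).swap) y hy
      refine ⟨x, hx, ih β hβ _ (hp.insert _) ?_ fun β' hβ' => (h1 β' hβ').symm ?_⟩
      · rintro a (rfl | ha)
        · exact ⟨hx, hy⟩
        · exact hpX a ha
      · rintro a (rfl | ha)
        · exact mem_insert _ _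
        · exact mem_insert_of_mem _ ha

/-! ### conditions -/

/-- conditions: a finite tuple and a level -/
abbrev Cd (X : Set M) (α : Ordinal.{0}) : Type 1 := Σ m : ℕ, (Fin m → X) × Iio α

section

variable {S : L.Structure M} {X : Set M} {α : Ordinal.{0}}

/-- the tuple of a condition, extended by a constant -/
noncomputable def Cd.v (x0 : M) (p : Cd X α) (i : ℕ) : M :=
  if h : i < p.1 then (p.2.1 ⟨i, h⟩ : M) else x0

theorem Cd.v_mem {x0 : M} (hx0 : x0 ∈ X) (p : Cd X α) (i : ℕ) : p.v x0 i ∈ X := by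
  unfold Cd.v
  split_ifs with h
  · exact (p.2.1 ⟨i, h⟩).2
  · exact hx0

/-- making a condition -/
def Cd.mk (m : ℕ) (f : ℕ → M) (hf : ∀ i, f i ∈ X) (β : Ordinal.{0}) (hβ : β < α) : Cd X α :=
  ⟨m, fun i => ⟨f i, hf i⟩, ⟨β, hβ⟩⟩

theorem Cd.v_mk {x0 : M} {m : ℕ} {f : ℕ → M} (hf : ∀ i, f i ∈ X) {β : Ordinal.{0}}
    (hβ : β < α) {i : ℕ} (hi : i < m) : (Cd.mk m f hf β hβ).v x0 i = f i := by
  unfold Cd.v
  rw [dif_pos (show i < (Cd.mk m f hf β hβ).1 from hi)]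
  rfl

/-- the pairs of the first `m` values -/
def prm (m : ℕ) (f : ℕ → M) (g : ℕ → N) : Set (M × N) := {z | ∃ i < m, z = (f i, g i)}

/-- extension of conditions -/
def Cd.le (S : L.Structure M) (x0 : M) (p q : Cd X α) : Prop :=
  p.1 ≤ q.1 ∧ (p.2.2 : Ordinal.{0}) ≤ (q.2.2 : Ordinal.{0}) ∧
    BFR S S X X (p.2.2 : Ordinal.{0}) (prm p.1 (p.v x0) (q.v x0))

theorem Cd.le_refl {x0 : M} (hx0 : x0 ∈ X) (p : Cd X α) : p.le S x0 p := by
  refine ⟨le_rfl, le_rfl, BFR.refl S X _ ?_⟩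
  rintro _ ⟨i, -, rfl⟩
  exact ⟨p.v_mem hx0 i, rfl⟩

theorem Cd.le_trans {x0 : M} {p q s : Cd X α} (h1 : p.le S x0 q) (h2 : q.le S x0 s) :
    p.le S x0 s := by
  refine ⟨h1.1.trans h2.1, h1.2.1.trans h2.2.1, h1.2.2.trans (h2.2.2.mono h1.2.1) ?_⟩
  rintro _ ⟨i, hi, rfl⟩
  exact ⟨q.v x0 i, ⟨i, hi, rfl⟩, ⟨i, hi.trans_le h1.1, rfl⟩⟩

/-- making an extension -/
theorem Cd.le_mk {x0 : M} (p : Cd X α) {m : ℕ} {f : ℕ → M} (hf : ∀ i, f i ∈ X)
    {β : Ordinal.{0}} (hβ : β < α) (hm : p.1 ≤ m) (hpβ : (p.2.2 : Ordinal.{0}) ≤ β)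
    (h : BFR S S X X (p.2.2 : Ordinal.{0}) (prm p.1 (p.v x0) f)) :
    p.le S x0 (Cd.mk m f hf β hβ) := by
  refine ⟨hm, hpβ, BFR.anti ?_ h⟩
  rintro _ ⟨i, hi, rfl⟩
  exact ⟨i, hi, by rw [Cd.v_mk hf hβ (hi.trans_le hm)]⟩

/-! ### the four families of dense sets -/

theorem dense_len {x0 : M} (hx0 : x0 ∈ X) (K : ℕ) (p : Cd X α) :
    ∃ q, p.le S x0 q ∧ K ≤ q.1 := by
  refine ⟨Cd.mk (max K p.1) (p.v x0) (p.v_mem hx0) p.2.2 p.2.2.2, p.le_mk _ _ (le_max_right _ _)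
    le_rfl (BFR.refl S X _ ?_), le_max_left _ _⟩
  rintro _ ⟨i, -, rfl⟩
  exact ⟨p.v_mem hx0 i, rfl⟩

theorem dense_lev {x0 : M} (hx0 : x0 ∈ X) {β : Ordinal.{0}} (hβ : β < α) (p : Cd X α) :
    ∃ q, p.le S x0 q ∧ β ≤ (q.2.2 : Ordinal.{0}) := by
  refine ⟨Cd.mk p.1 (p.v x0) (p.v_mem hx0) (max β p.2.2) (max_lt hβ p.2.2.2),
    p.le_mk _ _ le_rfl (le_max_right _ _) (BFR.refl S X _ ?_), le_max_left _ _⟩
  rintro _ ⟨i, -, rfl⟩
  exact ⟨p.v_mem hx0 i, rfl⟩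

theorem dense_forth {x0 : M} (hx0 : x0 ∈ X) (q : Cd X α) {x : M} (hx : x ∈ X) {β : Ordinal.{0}}
    (hβ : β < (q.2.2 : Ordinal.{0})) (p : Cd X α) :
    ∃ s, p.le S x0 s ∧ (q.le S x0 s → ∃ j < s.1, BFR S S X X β
      (insert (x, s.v x0 j) (prm q.1 (q.v x0) (s.v x0)))) := by
  by_cases hqp : q.le S x0 p
  · obtain ⟨y, hy, h1⟩ := hqp.2.2.forth hβ hx
    let f : ℕ → M := fun i => if i < p.1 then p.v x0 i else y
    have hf : ∀ i, f i ∈ X := by
      intro i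
      simp only [f]
      split_ifs
      · exact p.v_mem hx0 i
      · exact hy
    have hfi : ∀ i < p.1, f i = p.v x0 i := fun i hi => by simp only [f, if_pos hi]
    have hfp : f p.1 = y := by simp only [f, if_neg (lt_irrefl _)]
    refine ⟨Cd.mk (p.1 + 1) f hf p.2.2 p.2.2.2, p.le_mk _ _ (Nat.le_succ _) le_rfl
      (BFR.refl S X _ ?_), fun _ => ⟨p.1, Nat.lt_succ_self _, BFR.anti ?_ h1⟩⟩
    · rintro _ ⟨i, hi, rfl⟩
      exact ⟨p.v_mem hx0 i, hfi i hi⟩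
    · rw [Cd.v_mk hf _ (Nat.lt_succ_self _), hfp]
      refine insert_subset_insert ?_
      rintro _ ⟨i, hi, rfl⟩
      have hi' : i < p.1 := hi.trans_le hqp.1
      exact ⟨i, hi, by rw [Cd.v_mk hf _ (hi'.trans (Nat.lt_succ_self _)), hfi i hi']⟩
  · exact ⟨p, p.le_refl hx0, fun h => absurd h hqp⟩

theorem dense_omit (h0 : 0 < α) (hlim : ∀ β < α, β + 1 < α) {x0 : M} (hx0 : x0 ∈ X) {n : ℕ}
    {c : Fin n → M} (hc : ¬ Iso S X α c) (t : Fin n → ℕ) (p : Cd X α) :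
    ∃ s, p.le S x0 s ∧ ((∀ i, t i < s.1) → ¬ BFR S S X X (s.2.2 : Ordinal.{0})
      (range fun i => (c i, s.v x0 (t i)))) := by
  by_cases hto : ∀ i, t i < p.1
  swap
  · exact ⟨p, p.le_refl hx0, fun h => absurd h hto⟩
  by_cases hcase : ∃ β < α, ¬ BFR S S X X β (range fun i => (c i, p.v x0 (t i)))
  · obtain ⟨β, hβ, hn⟩ := hcase
    refine ⟨Cd.mk p.1 (p.v x0) (p.v_mem hx0) (max β p.2.2) (max_lt hβ p.2.2.2),
      p.le_mk _ _ le_rfl (le_max_right _ _) (BFR.refl S X _ ?_), fun ht hb => hn ?_⟩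
    · rintro _ ⟨i, -, rfl⟩
      exact ⟨p.v_mem hx0 i, rfl⟩
    · refine BFR.anti ?_ (hb.mono (le_max_left β _))
      rintro _ ⟨i, rfl⟩
      exact ⟨i, congrArg (Prod.mk (c i)) (Cd.v_mk _ _ (hto i))⟩
  · push Not at hcase
    unfold Iso at hc
    push Not at hc
    obtain ⟨b, hb, h1, β', hβ', h2⟩ := hc _ (add_nat_lt hlim p.2.2.2 p.1)
    have h3 : BFR S S X X ((p.2.2 : Ordinal.{0}) + (p.1 : Ordinal.{0}))
        (range fun i => (p.v x0 (t i), b i)) := by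
      have h4 : BFR S S X X ((p.2.2 : Ordinal.{0}) + (p.1 : Ordinal.{0}))
          (range fun i => (p.v x0 (t i), c i)) := by
        refine (hcase _ (add_nat_lt hlim p.2.2.2 p.1)).symm ?_
        rintro _ ⟨i, rfl⟩
        exact ⟨i, rfl⟩
      refine h4.trans h1 ?_
      rintro _ ⟨i, rfl⟩
      exact ⟨c i, ⟨i, rfl⟩, ⟨i, rfl⟩⟩
    obtain ⟨y, hy, h5⟩ := BFR.forth_many _ h3 (fun i : Fin p.1 => p.v x0 i)
      (fun i => p.v_mem hx0 _)
    let f : ℕ → M := fun i => if h : i < p.1 then y ⟨i, h⟩ else x0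
    have hf : ∀ i, f i ∈ X := by
      intro i
      simp only [f]
      split_ifs
      · exact hy _
      · exact hx0
    have hfi : ∀ (i : ℕ) (hi : i < p.1), f i = y ⟨i, hi⟩ := fun i hi => by
      simp only [f, dif_pos hi]
    refine ⟨Cd.mk p.1 f hf (max β' p.2.2) (max_lt hβ' p.2.2.2),
      p.le_mk _ _ le_rfl (le_max_right _ _) (BFR.anti ?_ h5), fun ht hbb => h2 ?_⟩
    · rintro _ ⟨i, hi, rfl⟩
      exact Or.inr ⟨⟨i, hi⟩, by rw [hfi i hi]⟩
    · refine BFR.anti ?_ (hbb.mono (le_max_left β' _))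
      rintro _ ⟨i, rfl⟩
      refine ⟨i, ?_⟩
      have h6 : b i = y ⟨t i, hto i⟩ :=
        (h5.atEq.1 (p.v x0 (t i), b i) (Or.inl ⟨i, rfl⟩) (p.v x0 (t i), y ⟨t i, hto i⟩)
          (Or.inr ⟨⟨t i, hto i⟩, rfl⟩)).mp rfl
      refine congrArg (Prod.mk (c i)) ?_
      rw [h6, ← hfi _ (hto i)]
      exact Cd.v_mk _ _ (hto i)

/-! ### the structure of a generic sequence -/

/-- a generic sequence of conditions -/
structure Gen (S : L.Structure M) (X : Set M) (α : Ordinal.{0}) {n : ℕ} (c : Fin n → M)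
    (m : ℕ → ℕ) (a : ℕ → ℕ → M) (b : ℕ → Ordinal.{0}) : Prop where
  lt : ∀ k, b k < α
  mem : ∀ k i, a k i ∈ X
  m_mono : ∀ k k', k ≤ k' → m k ≤ m k'
  b_mono : ∀ k k', k ≤ k' → b k ≤ b k'
  ext : ∀ k k', k ≤ k' → BFR S S X X (b k) (prm (m k) (a k) (a k'))
  len : ∀ K, ∃ k, K ≤ m k
  lev : ∀ β < α, ∃ k, β ≤ b k
  forth : ∀ k, ∀ x ∈ X, ∀ β < b k, ∃ k', k ≤ k' ∧ ∃ j < m k',
    BFR S S X X β (insert (x, a k' j) (prm (m k) (a k) (a k')))
  omi : ∀ t : Fin n → ℕ, ∃ k, (∀ i, t i < m k) ∧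
    ¬ BFR S S X X (b k) (range fun i => (c i, a k (t i)))

theorem exists_gen (hX : X.Countable) (hα : α < om1) (h0 : 0 < α)
    (hlim : ∀ β < α, β + 1 < α) {x0 : M} (hx0 : x0 ∈ X) {n : ℕ} {c : Fin n → M}
    (hc : ¬ Iso S X α c) : ∃ m a b, Gen S X α c m a b := by
  have := hX.to_subtype
  have : Countable (Iio α) := (countable_Iio hα).to_subtype
  have : Nonempty (Iio α) := ⟨⟨0, h0⟩⟩
  let ι : Type 1 := (Cd X α × X × Iio α) ⊕ ((Fin n → ℕ) ⊕ (Iio α ⊕ ℕ))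
  let D : ι → Set (Cd X α) := fun i => match i with
    | Sum.inl (q, x, β) => {s | (β : Ordinal.{0}) < (q.2.2 : Ordinal.{0}) → Cd.le S x0 q s →
        ∃ j < s.1, BFR S S X X β (insert ((x : M), Cd.v x0 s j)
          (prm q.1 (Cd.v x0 q) (Cd.v x0 s)))}
    | Sum.inr (Sum.inl t) => {s | (∀ i, t i < s.1) → ¬ BFR S S X X (s.2.2 : Ordinal.{0})
        (range fun i => (c i, Cd.v x0 s (t i)))}
    | Sum.inr (Sum.inr (Sum.inl β)) => {s | (β : Ordinal.{0}) ≤ (s.2.2 : Ordinal.{0})}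
    | Sum.inr (Sum.inr (Sum.inr K)) => {s | K ≤ s.1}
  have hD : ∀ i p, ∃ q, Cd.le S x0 p q ∧ q ∈ D i := by
    intro i p
    match i with
    | Sum.inl (q, x, β) =>
      by_cases hβ : (β : Ordinal.{0}) < (q.2.2 : Ordinal.{0})
      · obtain ⟨s, h1, h2⟩ := dense_forth (S := S) hx0 q x.2 hβ p
        exact ⟨s, h1, fun _ => h2⟩
      · exact ⟨p, Cd.le_refl hx0 p, fun h => absurd h hβ⟩
    | Sum.inr (Sum.inl t) => exact dense_omit h0 hlim hx0 hc t p
    | Sum.inr (Sum.inr (Sum.inl β)) => exact dense_lev hx0 β.2 p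
    | Sum.inr (Sum.inr (Sum.inr K)) => exact dense_len hx0 K p
  have : Nonempty ι := ⟨Sum.inr (Sum.inr (Sum.inr 0))⟩
  have : Countable ι := by infer_instance
  obtain ⟨f, hf, hfD⟩ := gen_seq (Cd.le S x0) (Cd.le_refl hx0)
    (fun _ _ _ => Cd.le_trans) D hD (Cd.mk 0 (fun _ => x0) (fun _ => hx0) 0 h0)
  have hlen : ∀ K, ∃ k, K ≤ (f k).1 := fun K => by
    obtain ⟨k, -, hk⟩ := hfD (Sum.inr (Sum.inr (Sum.inr K))) 0
    exact ⟨k, hk⟩
  refine ⟨fun k => (f k).1, fun k => (f k).v x0, fun k => ((f k).2.2 : Ordinal.{0}),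
    fun k => (f k).2.2.2, fun k i => (f k).v_mem hx0 i, fun k k' h => (hf k k' h).1,
    fun k k' h => (hf k k' h).2.1, fun k k' h => (hf k k' h).2.2, hlen, fun β hβ => ?_,
    fun k x hx β hβ => ?_, fun t => ?_⟩
  · obtain ⟨k, -, hk⟩ := hfD (Sum.inr (Sum.inr (Sum.inl ⟨β, hβ⟩))) 0
    exact ⟨k, hk⟩
  · obtain ⟨k', hkk', hk'⟩ := hfD (Sum.inl (f k, ⟨x, hx⟩, ⟨β, hβ.trans (f k).2.2.2⟩)) k
    exact ⟨k', hkk', hk' hβ (hf k k' hkk')⟩
  · obtain ⟨K, hK⟩ : ∃ K, ∀ i, t i < K := by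
      refine ⟨(Finset.univ.sup t) + 1, fun i => Nat.lt_succ_of_le ?_⟩
      exact Finset.le_sup (f := t) (Finset.mem_univ i)
    obtain ⟨k, hk⟩ := hlen K
    obtain ⟨k', hkk', hk'⟩ := hfD (Sum.inr (Sum.inl t)) k
    have hlt : ∀ i, t i < (f k').1 := fun i => (hK i).trans_le (hk.trans (hf k k' hkk').1)
    exact ⟨k', hlt, hk' hlt⟩

namespace Gen

variable {n : ℕ} {c : Fin n → M} {m : ℕ → ℕ} {a : ℕ → ℕ → M} {b : ℕ → Ordinal.{0}}

theorem eq_iff (G : Gen S X α c m a b) {k k' : ℕ} (hk : k ≤ k') {i j : ℕ} (hi : i < m k)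
    (hj : j < m k) : a k i = a k j ↔ a k' i = a k' j :=
  (G.ext k k' hk).atEq.1 (a k i, a k' i) ⟨i, hi, rfl⟩ (a k j, a k' j) ⟨j, hj, rfl⟩

theorem eq_iff' (G : Gen S X α c m a b) {k k' : ℕ} {i j : ℕ} (hi : i < m k)
    (hj : j < m k) (hi' : i < m k') (hj' : j < m k') : a k i = a k j ↔ a k' i = a k' j := by
  rcases le_total k k' with h | h
  · exact G.eq_iff h hi hj
  · exact (G.eq_iff h hi' hj').symm

theorem rel_iff (G : Gen S X α c m a b) {k k' : ℕ} (hk : k ≤ k') {r : ℕ} (R : L.Relations r)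
    {y : Fin r → ℕ} (hy : ∀ i, y i < m k) :
    S.RelMap R (fun i => a k (y i)) ↔ S.RelMap R (fun i => a k' (y i)) :=
  (G.ext k k' hk).atEq.2 r R (fun i => (a k (y i), a k' (y i))) fun i => ⟨y i, hy i, rfl⟩

theorem rel_iff' (G : Gen S X α c m a b) {k k' : ℕ} {r : ℕ} (R : L.Relations r)
    {y : Fin r → ℕ} (hy : ∀ i, y i < m k) (hy' : ∀ i, y i < m k') :
    S.RelMap R (fun i => a k (y i)) ↔ S.RelMap R (fun i => a k' (y i)) := by
  rcases le_total k k' with h | h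
  · exact G.rel_iff h R hy
  · exact (G.rel_iff h R hy').symm

/-- the limit structure -/
@[reducible] def T (S : L.Structure M) (m : ℕ → ℕ) (a : ℕ → ℕ → M) : L.Structure ℕ where
  funMap := fun _ _ => 0
  RelMap := fun R y => ∃ k, (∀ i, y i < m k) ∧ S.RelMap R (fun i => a k (y i))

theorem T_iff (G : Gen S X α c m a b) {k : ℕ} {r : ℕ} (R : L.Relations r) {y : Fin r → ℕ}
    (hy : ∀ i, y i < m k) :
    (T S m a).RelMap R y ↔ S.RelMap R (fun i => a k (y i)) := by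
  constructor
  · rintro ⟨k', hk', h⟩
    exact (G.rel_iff' R hy hk').mpr h
  · exact fun h => ⟨k, hy, h⟩

theorem exists_rep (G : Gen S X α c m a b) : ∃ rep : ℕ → ℕ, (∀ j, rep j ≤ j) ∧
    (∀ k, ∀ j < m k, a k (rep j) = a k j) ∧
    (∀ k, ∀ i < m k, ∀ j < m k, a k i = a k j → rep i = rep j) ∧ ∀ j, rep (rep j) = rep j := by
  classical
  have hex : ∀ j, ∃ i, ∃ k, i < m k ∧ j < m k ∧ a k i = a k j := fun j => by
    obtain ⟨k, hk⟩ := G.len (j + 1)
    exact ⟨j, k, hk, hk, rfl⟩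
  let rep : ℕ → ℕ := fun j => Nat.find (hex j)
  have h1 : ∀ j, rep j ≤ j := fun j => Nat.find_min' (hex j) (by
    obtain ⟨k, hk⟩ := G.len (j + 1)
    exact ⟨k, hk, hk, rfl⟩)
  have h2 : ∀ k, ∀ j < m k, a k (rep j) = a k j := by
    intro k j hj
    obtain ⟨k', h3, h4, h5⟩ := Nat.find_spec (hex j)
    exact (G.eq_iff' h3 h4 ((h1 j).trans_lt hj) hj).mp h5
  have h3 : ∀ k, ∀ i < m k, ∀ j < m k, a k i = a k j → rep i ≤ rep j := by
    intro k i hi j hj h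
    refine Nat.find_min' (hex i) ⟨k, (h1 j).trans_lt hj, hi, ?_⟩
    rw [h, h2 k j hj]
  refine ⟨rep, h1, h2, fun k i hi j hj h => le_antisymm (h3 k i hi j hj h)
    (h3 k j hj i hi h.symm), fun j => ?_⟩
  obtain ⟨k, hk⟩ := G.len (j + 1)
  have hj : j < m k := hk
  exact le_antisymm (h3 k _ ((h1 j).trans_lt hj) j hj (h2 k j hj))
    (h3 k j hj _ ((h1 j).trans_lt hj) (h2 k j hj).symm)

/-- the limit structure is equivalent to the piece -/
theorem bfr (G : Gen S X α c m a b) {rep : ℕ → ℕ} (h1 : ∀ j, rep j ≤ j)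
    (h2 : ∀ k, ∀ j < m k, a k (rep j) = a k j)
    (h3 : ∀ k, ∀ i < m k, ∀ j < m k, a k i = a k j → rep i = rep j)
    (h4 : ∀ j, rep (rep j) = rep j) (γ : Ordinal.{0}) : ∀ k, γ ≤ b k →
      BFR S (T S m a) X (range rep) γ (prm (m k) (a k) rep) := by
  induction γ using WellFoundedLT.induction with
  | _ γ ih =>
    intro k hk
    rw [BFR.def]
    refine ⟨⟨?_, ?_⟩, fun β hβ => ⟨fun x hx => ?_, ?_⟩⟩
    · rintro _ ⟨i, hi, rfl⟩ _ ⟨j, hj, rfl⟩
      refine ⟨h3 k i hi j hj, fun h => ?_⟩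
      show a k i = a k j
      rw [← h2 k i hi, ← h2 k j hj]
      exact congrArg (a k) h
    · intro r R v hv
      choose t ht ht' using hv
      have e1 : (fun i => (v i).1) = fun i => a k (t i) := by
        funext i
        rw [ht' i]
      have e2 : (fun i => (v i).2) = fun i => rep (t i) := by
        funext i
        rw [ht' i]
      rw [e1, e2, G.T_iff R (k := k) (fun i => (h1 _).trans_lt (ht i))]
      have e3 : (fun i => a k (rep (t i))) = fun i => a k (t i) := by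
        funext i
        exact h2 k _ (ht i)
      rw [e3]
    · obtain ⟨k', hkk', j, hj, h5⟩ := G.forth k x hx β (hβ.trans_le hk)
      have h6 := ih β hβ k' ((hβ.le.trans hk).trans (G.b_mono k k' hkk'))
      refine ⟨rep j, mem_range_self j, h5.trans h6 ?_⟩
      rintro _ (rfl | ⟨i, hi, rfl⟩)
      · exact ⟨a k' j, mem_insert _ _, ⟨j, hj, rfl⟩⟩
      · exact ⟨a k' i, mem_insert_of_mem _ ⟨i, hi, rfl⟩,
          ⟨i, hi.trans_le (G.m_mono k k' hkk'), rfl⟩⟩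
    · rintro _ ⟨j, rfl⟩
      obtain ⟨k₁, hk₁⟩ := G.len (j + 1)
      let k' := max k k₁
      have hkk' : k ≤ k' := le_max_left _ _
      have hj : j < m k' := lt_of_lt_of_le hk₁ (G.m_mono k₁ k' (le_max_right _ _))
      obtain ⟨x, hx, h5⟩ := (G.ext k k' hkk').back (hβ.trans_le hk) (G.mem k' j)
      have h6 := ih β hβ k' ((hβ.le.trans hk).trans (G.b_mono k k' hkk'))
      refine ⟨x, hx, h5.trans h6 ?_⟩
      rintro _ (rfl | ⟨i, hi, rfl⟩)
      · exact ⟨a k' j, mem_insert _ _, ⟨j, hj, rfl⟩⟩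
      · exact ⟨a k' i, mem_insert_of_mem _ ⟨i, hi, rfl⟩,
          ⟨i, hi.trans_le (G.m_mono k k' hkk'), rfl⟩⟩

end Gen

/-- the theorem for countable pieces -/
theorem omit_type₀ (hX : X.Countable) (hα : α < om1) (h0 : 0 < α)
    (hlim : ∀ β < α, β + 1 < α) (hSL : ¬ SL S X α) :
    ∃ (T : L.Structure ℕ) (Y : Set ℕ), (∀ β < α, BFR T S Y X β ∅) ∧ ¬ BFI T S Y X ∅ := by
  have hiso : ¬ ∀ (n : ℕ) (c : Fin n → M), (∀ i, c i ∈ X) → Iso S X α c :=
    fun h => hSL (SL.of_iso h0 hlim h)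
  push Not at hiso
  obtain ⟨n, c, hcX, hc⟩ := hiso
  have hne : X.Nonempty := by
    rcases X.eq_empty_or_nonempty with h | h
    · exfalso
      refine hc ⟨0, h0, fun b hb _ β' _ => BFR.refl S X β' ?_⟩
      rintro _ ⟨i, rfl⟩
      rw [h] at hb
      exact absurd (hb i) (notMem_empty _)
    · exact h
  obtain ⟨x0, hx0⟩ := hne
  obtain ⟨m, a, b, G⟩ := exists_gen (S := S) hX hα h0 hlim hx0 hc
  obtain ⟨rep, h1, h2, h3, h4⟩ := G.exists_rep
  refine ⟨Gen.T S m a, range rep, fun β hβ => ?_, fun H => ?_⟩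
  · obtain ⟨k, hk⟩ := G.lev β hβ
    exact (G.bfr h1 h2 h3 h4 β k hk).symm fun a ha => absurd ha (notMem_empty a)
  · obtain ⟨y, hy, h5⟩ := BFR.back_many n (H _ (add_lt_om1 hα (natCast_lt_om1 n))) c hcX
    obtain ⟨k, hk, h6⟩ := G.omi y
    refine h6 ?_
    have h7 : BFR S (Gen.T S m a) X (range rep) (b k) (range fun i => (c i, y i)) := by
      refine (h5.mono (G.lt k).le).symm ?_
      rintro _ ⟨i, rfl⟩
      exact Or.inr ⟨i, rfl⟩
    have h8 : BFR (Gen.T S m a) S (range rep) X (b k) (range fun i => (y i, a k (y i))) := by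
      refine (G.bfr h1 h2 h3 h4 (b k) k le_rfl).symm ?_
      rintro _ ⟨i, rfl⟩
      refine ⟨y i, hk i, ?_⟩
      obtain ⟨j, hj⟩ := hy i
      show (a k (y i), y i) = (a k (y i), rep (y i))
      rw [← hj, h4]
    refine h7.trans h8 ?_
    rintro _ ⟨i, rfl⟩
    exact ⟨y i, ⟨i, rfl⟩, ⟨i, rfl⟩⟩

end

/-- **Omitting types.** -/
theorem omit_type (S : L.Structure M) {X : Set M} (hX : TameX S X) {α : Ordinal.{0}}
    (hα : α < om1) (h0 : 0 < α) (hlim : ∀ β < α, β + 1 < α) (hSL : ¬ SL S X α) :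
    ∃ (T : L.Structure ℕ) (Y : Set ℕ), (∀ β < α, BFR T S Y X β ∅) ∧ ¬ BFI T S Y X ∅ := by
  obtain ⟨N, S', Z, hZ, hXZ⟩ := hX
  have hZX : ∀ γ < om1, BFR S' S Z X γ ∅ := fun γ hγ =>
    (hXZ γ hγ).symm fun a ha => absurd ha (notMem_empty a)
  have hSL' : ¬ SL S' Z α := fun h =>
    hSL (h.congr hα (hZX _ (add_lt_om1 hα omega_lt_om1)))
  obtain ⟨T, Y, h1, h2⟩ := omit_type₀ (S := S') hZ hα h0 hlim hSL'
  refine ⟨T, Y, fun β hβ => ?_, fun H => h2 fun γ hγ => ?_⟩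
  · exact (h1 β hβ).trans (hZX β (hβ.trans hα)) fun a ha => absurd ha (notMem_empty a)
  · exact (H γ hγ).trans (hXZ γ hγ) fun a ha => absurd ha (notMem_empty a)

end Pool.Agent.Helper97.LO
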